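import Mathlib
import Pool.Agent.K9h55.GV.Transfer

/-!
# The gcd recursion for prime triples: few values of `f`

`b` is the 3-periodic sequence `2, 6, 0, ...`, `a N` the recursion `a_N` of the problem and
`f N = f(N)` its least zero. The trajectories `T_N(n) = a_N(n) + n + 1` coalesce: for every
`ε > 0` there is a time `n₀` such that for all large `X` the pairs `(a_N(n₀), f(N))`, `6 ≤ N ≤ X`,
take at most `ε X` values. In particular `f` takes only `o(X)` distinct values on `[6, X]`.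

Proof. Modulo `Q` the step is `(n, T) ↦ (n + 1, T - g + 1)`, `g = gcd(T + b(n+1), n + 1 + b(n+1), Q)`.
The image `Ω_k` of `k` steps decreases with `k`; while its density does not drop, it is nearly
invariant under the shifts of `T` by multiples of `L!`. Hence, for a prime `r ≡ 1 mod L!` and
`k ≪ r`, many pairs `(n, T)`, `(n, T - (r - 1) g)` with gcds `r g` and `g` lie in `Ω_k`, and they
have the same image. The loss of density is `≫ 1 / r ^ 2` for each step `k ≪ r`, thus `≫ 1 / r` for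
each `r`, and the sum of `1 / r` over the primes `r ≡ 1 mod L!` diverges. So the density of `Ω_k`
tends to `0`, uniformly in `Q`.
-/

set_option autoImplicit false

namespace Pool.Agent.Results.MP_3f8e47_nt.FewZeroIndices

open Finset Filter Pool.Agent.K9h55.GV

/-- The 3-periodic sequence `2, 6, 0, 2, 6, 0, …` (indexed from 1). -/
def b (n : ℕ) : ℕ := if n % 3 = 1 then 2 else if n % 3 = 2 then 6 else 0

/-- the recursion `a_N`: `a_N(1) = N - 6`, `a_N(n) = a_N(n-1) - gcd(a_N(n-1), n + b(n))` for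
`n ≥ 2` (and `a_N(0) = 0`, not used) -/
noncomputable def a (N : ℕ) : ℕ → ℤ
  | 0 => 0
  | 1 => (N : ℤ) - 6
  | (n + 2) => a N (n + 1) - ((Int.gcd (a N (n + 1)) ((n + 2 + b (n + 2) : ℕ) : ℤ) : ℕ) : ℤ)

/-- `f(N)`: the least `n ≥ 1` with `a_N(n) = 0` -/
noncomputable def f (N : ℕ) : ℕ := sInf {n : ℕ | 1 ≤ n ∧ a N n = 0}

lemma a_one (N : ℕ) : a N 1 = (N : ℤ) - 6 := by rw [a]

lemma a_rec (N n : ℕ) (hn : 1 ≤ n) :
    a N (n + 1) = a N n - ((Int.gcd (a N n) ((n + 1 + b (n + 1) : ℕ) : ℤ) : ℕ) : ℤ) := by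
  obtain ⟨k, rfl⟩ : ∃ k, n = k + 1 := ⟨n - 1, by omega⟩
  rw [a]

lemma b_le (n : ℕ) : b n ≤ 6 := by unfold b; split_ifs <;> omega

lemma bz_b (n : ℕ) : bz (n : ℤ) = (b n : ℤ) := by
  unfold bz b
  have h : ((n : ℤ) % 3 = 1 ↔ n % 3 = 1) := by omega
  have h' : ((n : ℤ) % 3 = 2 ↔ n % 3 = 2) := by omega
  simp only [h, h']
  split_ifs <;> rfl

lemma a_pos (N : ℕ) (hN : 6 ≤ N) (n : ℕ) (hn : 1 ≤ n) (h : ∀ k, 1 ≤ k → k ≤ n → a N k ≠ 0) :
    0 < a N n ∧ a N n + n ≤ (N : ℤ) - 5 := by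
  induction n, hn using Nat.le_induction with
  | base =>
    have h1 := h 1 le_rfl le_rfl
    rw [a_one] at h1 ⊢
    push_cast
    constructor <;> omega
  | succ n hn ih =>
    have h1 := ih fun k hk1 hk2 => h k hk1 (by omega)
    have h2 := a_rec N n hn
    set g := Int.gcd (a N n) ((n + 1 + b (n + 1) : ℕ) : ℤ) with hg
    have h3 : ((g : ℕ) : ℤ) ≤ a N n := Int.le_of_dvd h1.1 (Int.gcd_dvd_left ..)
    have h4 : 1 ≤ g := by
      rw [Nat.one_le_iff_ne_zero, hg]
      intro h0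
      rw [Int.gcd_eq_zero_iff] at h0
      omega
    have h5 := h (n + 1) (by omega) le_rfl
    have h6 : 0 < a N (n + 1) := by omega
    refine ⟨h6, ?_⟩
    push_cast
    omega

lemma f_isLeast (N : ℕ) (hN : 6 ≤ N) : IsLeast {n : ℕ | 1 ≤ n ∧ a N n = 0} (f N) := by
  have hne : {n : ℕ | 1 ≤ n ∧ a N n = 0}.Nonempty := by
    by_contra hcon
    rw [Set.not_nonempty_iff_eq_empty] at hcon
    have h : ∀ k, 1 ≤ k → k ≤ N → a N k ≠ 0 := by
      intro k hk _ h0
      have : k ∈ {n : ℕ | 1 ≤ n ∧ a N n = 0} := ⟨hk, h0⟩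
      rw [hcon] at this
      exact this
    have := a_pos N hN N (by omega) h
    omega
  exact ⟨Nat.sInf_mem hne, fun m hm => Nat.sInf_le hm⟩

lemma a_pos' (N : ℕ) (hN : 6 ≤ N) (n : ℕ) (hn : 1 ≤ n) (hf : n < f N) :
    0 < a N n ∧ a N n + n ≤ (N : ℤ) - 5 := by
  refine a_pos N hN n hn ?_
  intro k hk hkn h0
  have := (f_isLeast N hN).2 (show k ∈ {n : ℕ | 1 ≤ n ∧ a N n = 0} from ⟨hk, h0⟩)
  omega

lemma a_ge (N n : ℕ) (hn : 1 ≤ n) : (N : ℤ) - 6 - n * (n + 6) ≤ a N n := by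
  induction n, hn using Nat.le_induction with
  | base => rw [a_one]; push_cast; omega
  | succ n hn ih =>
    rw [a_rec N n hn]
    have h1 : Int.gcd (a N n) ((n + 1 + b (n + 1) : ℕ) : ℤ) ≤ n + 1 + b (n + 1) := by
      have := Nat.le_of_dvd (by omega) (Int.gcd_dvd_natAbs_right (a N n)
        ((n + 1 + b (n + 1) : ℕ) : ℤ))
      rwa [Int.natAbs_natCast] at this
    have h2 := b_le (n + 1)
    have h3 : ((Int.gcd (a N n) ((n + 1 + b (n + 1) : ℕ) : ℤ) : ℕ) : ℤ) ≤ n + 7 := by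
      have : Int.gcd (a N n) ((n + 1 + b (n + 1) : ℕ) : ℤ) ≤ n + 7 := by omega
      exact_mod_cast this
    push_cast
    nlinarith

lemma small (N H : ℕ) (hN : 6 ≤ N) (hf : f N ≤ H) : N ≤ 6 + H * (H + 6) := by
  obtain ⟨⟨h1, h2⟩, _⟩ := f_isLeast N hN
  have h3 := a_ge N (f N) h1
  rw [h2] at h3
  have h4 : f N * (f N + 6) ≤ H * (H + 6) := Nat.mul_le_mul hf (by omega)
  have h5 : ((f N : ℤ)) * (f N + 6) ≤ H * (H + 6) := by exact_mod_cast h4
  have h6 : (N : ℤ) ≤ 6 + H * (H + 6) := by linarith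
  exact_mod_cast h6

lemma tail (N M H : ℕ) (hH : 1 ≤ H) (h : a N H = a M H) (n : ℕ) (hn : H ≤ n) : a N n = a M n := by
  induction n, hn using Nat.le_induction with
  | base => exact h
  | succ n hn ih => rw [a_rec N n (by omega), a_rec M n (by omega), ih]

lemma f_eq (N M H : ℕ) (hN : 6 ≤ N) (hM : 6 ≤ M) (hH : 1 ≤ H) (h : a N H = a M H)
    (hfN : H < f N) (hfM : H < f M) : f N = f M := by
  obtain ⟨⟨h1, h2⟩, h3⟩ := f_isLeast N hN
  obtain ⟨⟨k1, k2⟩, k3⟩ := f_isLeast M hM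
  apply le_antisymm
  · exact h3 ⟨k1, by rw [tail N M H hH h _ hfM.le]; exact k2⟩
  · exact k3 ⟨h1, by rw [← tail N M H hH h _ hfN.le]; exact h2⟩

/-- For every `ε > 0` there is `n₀` such that for all large `X` the pair `(a_N(n₀), f(N))` takes at
most `ε X` distinct values for `6 ≤ N ≤ X`. -/
theorem result : ∀ ε : ℝ, 0 < ε → ∃ n₀ : ℕ, 1 ≤ n₀ ∧ ∀ᶠ X : ℕ in atTop,
    (((Icc 6 X).image (fun N => (a N n₀, f N))).card : ℝ) ≤ ε * X := by
  intro ε hε
  obtain ⟨H, hH, hev⟩ := transfer (ε / 2) (by positivity)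
  refine ⟨H, hH, ?_⟩
  filter_upwards [hev, eventually_ge_atTop (⌈2 * (7 + H * (H + 6) : ℝ) / ε⌉₊)] with X hX hXB
  classical
  set A : ℕ → Finset ℕ := fun n =>
    ((Icc 6 X).filter (fun N => H < f N)).image (fun N => (a N n + n + 1).toNat) with hA
  have h1 := hX A (by
    intro n hn hnH T hT
    rw [hA, Finset.mem_image] at hT
    obtain ⟨N, hN, rfl⟩ := hT
    rw [Finset.mem_filter, Finset.mem_Icc] at hN
    have p1 := a_pos' N hN.1.1 n hn (by omega)
    have p2 : 0 ≤ a N (n + 1) := by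
      rcases Nat.lt_or_ge (n + 1) (f N) with h | h
      · exact (a_pos' N hN.1.1 (n + 1) (by omega) h).1.le
      · have : f N = n + 1 := by omega
        have := (f_isLeast N hN.1.1).1.2
        rw [‹f N = n + 1›] at this
        exact this.ge
    refine ⟨(a N n + n + 1).toNat, ?_, ?_⟩
    · rw [hA]
      exact Finset.mem_image.mpr ⟨N, by
        rw [Finset.mem_filter, Finset.mem_Icc]; exact hN, rfl⟩
    · have e1 : (((a N (n + 1) + ((n + 1 : ℕ) : ℤ) + 1).toNat : ℕ) : ℤ) =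
          a N (n + 1) + ((n + 1 : ℕ) : ℤ) + 1 := Int.toNat_of_nonneg (by omega)
      have e2 : (((a N n + (n : ℤ) + 1).toNat : ℕ) : ℤ) = a N n + n + 1 :=
        Int.toNat_of_nonneg (by omega)
      rw [e1, e2, a_rec N n hn]
      have e3 : tg ((n + 1 : ℕ) : ℤ) (a N n + n + 1) =
          Int.gcd (a N n) ((n + 1 + b (n + 1) : ℕ) : ℤ) := by
        unfold tg
        rw [bz_b]
        have e4 : a N n + n + 1 + (b (n + 1) : ℤ) =
            a N n + (((n + 1 : ℕ) : ℤ) + (b (n + 1) : ℤ)) := by push_cast; ring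
        rw [e4, Int.gcd_add_self_left]
        push_cast
        rfl
      rw [e3]
      push_cast
      ring) (by
    intro n hn hnH T hT
    rw [hA, Finset.mem_image] at hT
    obtain ⟨N, hN, rfl⟩ := hT
    rw [Finset.mem_filter, Finset.mem_Icc] at hN
    have p1 := a_pos' N hN.1.1 n hn (by omega)
    have hNX : (N : ℤ) ≤ X := by exact_mod_cast hN.1.2
    constructor
    · zify
      rw [Int.toNat_of_nonneg (by omega)]
      omega
    · zify
      rw [Int.toNat_of_nonneg (by omega)]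
      omega)
  -- the pairs
  have h2 : (Icc 6 X).image (fun N => (a N H, f N)) ⊆
      (Icc 6 (6 + H * (H + 6))).image (fun N => (a N H, f N)) ∪
      ((Icc 6 X).filter (fun N => H < f N)).image (fun N => (a N H, f N)) := by
    intro p hp
    rw [Finset.mem_image] at hp
    obtain ⟨N, hN, rfl⟩ := hp
    rw [Finset.mem_union]
    rcases Nat.lt_or_ge H (f N) with h | h
    · right
      exact Finset.mem_image.mpr ⟨N, Finset.mem_filter.mpr ⟨hN, h⟩, rfl⟩
    · left
      rw [Finset.mem_Icc] at hN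
      exact Finset.mem_image.mpr ⟨N, Finset.mem_Icc.mpr ⟨hN.1, small N H hN.1 h⟩, rfl⟩
  have h3 : (((Icc 6 X).filter (fun N => H < f N)).image (fun N => (a N H, f N))).card ≤
      (A H).card := by
    apply Finset.card_le_card_of_injOn (fun p : ℤ × ℕ => (p.1 + H + 1).toNat)
    · intro p hp
      rw [Finset.mem_coe, Finset.mem_image] at hp
      obtain ⟨N, hN, rfl⟩ := hp
      rw [Finset.mem_coe, hA]
      exact Finset.mem_image.mpr ⟨N, hN, rfl⟩
    · intro p hp q hq hpq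
      rw [Finset.mem_coe, Finset.mem_image] at hp hq
      obtain ⟨N, hN, rfl⟩ := hp
      obtain ⟨M, hM, rfl⟩ := hq
      rw [Finset.mem_filter, Finset.mem_Icc] at hN hM
      have p1 := a_pos' N hN.1.1 H hH hN.2
      have p2 := a_pos' M hM.1.1 H hH hM.2
      simp only at hpq
      have e : a N H = a M H := by
        have := congrArg (fun n : ℕ => (n : ℤ)) hpq
        rw [Int.toNat_of_nonneg (by omega), Int.toNat_of_nonneg (by omega)] at this
        omega
      simp only [Prod.mk.injEq]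
      exact ⟨e, f_eq N M H hN.1.1 hM.1.1 hH e hN.2 hM.2⟩
  have h4 : ((Icc 6 (6 + H * (H + 6))).image (fun N => (a N H, f N))).card ≤
      7 + H * (H + 6) := by
    refine Finset.card_image_le.trans ?_
    rw [Nat.card_Icc]
    omega
  have h5 := (Finset.card_le_card h2).trans (Finset.card_union_le _ _)
  have h6 : (((Icc 6 X).image (fun N => (a N H, f N))).card : ℝ) ≤
      ((7 + H * (H + 6) : ℕ) : ℝ) + (A H).card := by
    exact_mod_cast h5.trans (Nat.add_le_add h4 h3)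
  have h7 : 2 * (7 + H * (H + 6) : ℝ) / ε ≤ X :=
    (Nat.le_ceil _).trans (by exact_mod_cast hXB)
  rw [div_le_iff₀ hε] at h7
  push_cast at h6
  linarith

end Pool.Agent.Results.MP_3f8e47_nt.FewZeroIndices
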