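import Pool.Agent.K9h6.GS.Top

/-!
# The gcd recursion for prime triples: `f(N) > √N exp(c (log N)^(1/4))`

The subtracted gcd at step `n` is at most `n + 6`, which gives only `f(N) ≥ (√2 - o(1)) √N`; the starting files SlowDescent and
FareyTreeOfJumps have `f(N) > √N (log N)^c` for `c < 1/4` and `f(N) > c √N log N / log log N`. Here the factor is
`exp(c (log N)^(1/4))`, more than every power of `log N` and more than `exp((log log N)^k)` for every `k`; there is also a bound,
uniform in two parameters, for the decrease: if `x² y ≤ exp(c (log N)^(1/4))` then `N - a_N(n) ≤ N / y` for all `n ≤ x √N`.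

Proof. Write `μ_n = v_n / g_n`, where `v_n = n + b(n)` is the second argument of the gcd and `g_n` the gcd, and let `L` be a
large power of the factor. If the decrease is too fast, then there are many windows of length `L` with two steps with `μ ≤ L^C`.
We show that in most of these windows the number `c(M)` of the steps with `μ ≤ M` grows too fast with `M`.
(A) From `M` to `M^8` it grows at least by the factor 8: two near steps with `μ ≤ M` and with fewer than 7 steps with
`μ ≤ M^8` in between are rare. This gives `c(M) ≥ 8 m` for some `M = L^O(m)`, where `m` is a large multiple of `log L`.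
(B) From `M` to `M' = M L^y`, `y = 200 (m + 1)`, it grows at least by the factor 5/4, once `c(M) ≥ 8 m`. Call a step with `μ ≤ M` low
if `μ² < M' / L^16`. Two low steps have, outside of few windows, a step with `μ ≤ M'` in between. And in a run of `8 m`
neighbouring steps with `μ ≤ M'` there are, outside of few windows, at most `m` steps with `μ ≤ M` which are not low. Indeed, on a
block of `s / M'` values of `n` (`s = √N`) the fraction `a / v` (mod 1) of each step of the run is determined by the fraction of
the one before it up to `L^4 / M'`; two different fractions with denominators `μ, μ'` differ by at least `1 / (μ μ')`, so the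
sum of `1 / μ` over the possible fractions is at most `L^6`, and at most `L^(6 - y)` if the step is not low and has `μ ≤ M`.
The values of `n` with given fractions lie in a residue class modulo the least common multiple of the `μ`, which is at
least `∏ μ / (L + 6)^(r²)` for runs of `r` steps. Summing over the tree of the possible fractions, we get a small number of such `n`,
since `y m ≥ 3 r² + 10 r + 6 m + 10` for `r = 8 m`.
After `4 log₂ L` steps (B) we would have `c(M) > L` in a window of length `L`, a contradiction.
-/

set_option autoImplicit false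

namespace Pool.Agent.Results.MP_3f8e47_nt.StretchedExponential

open Pool.Agent.R701.GD (b)

/-- There are `c > 0` and `N₀` such that for all `N ≥ N₀`, for the recursion `a = a_N` of the problem (`b` is the 3-periodic
sequence `2, 6, 0, …`): (1) `N - a(n) ≤ N / y` for all `n ≤ x √N`, whenever `x ≥ 1`, `y ≥ 2` and
`x² y ≤ exp(c (log N)^(1/4))`; (2) the zero `f = f(N)` satisfies `f > √N exp(c (log N)^(1/4))`. -/
theorem result :
    ∃ c : ℝ, 0 < c ∧ ∃ N₀ : ℕ, ∀ N : ℕ, N₀ ≤ N → ∀ a : ℕ → ℤ, a 1 = (N : ℤ) - 6 →
      (∀ n : ℕ, 2 ≤ n → a n = a (n - 1) - ((Int.gcd (a (n - 1)) ((n + b n : ℕ) : ℤ) : ℕ) : ℤ)) →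
      (∀ x y : ℝ, 1 ≤ x → 2 ≤ y → x ^ 2 * y ≤ Real.exp (c * Real.log N ^ (1 / 4 : ℝ)) →
        ∀ n : ℕ, 1 ≤ n → (n : ℝ) ≤ √(N : ℝ) * x → (N : ℝ) - a n ≤ N / y) ∧
      ∀ f : ℕ, IsLeast {n : ℕ | 1 ≤ n ∧ a n = 0} f →
        √(N : ℝ) * Real.exp (c * Real.log N ^ (1 / 4 : ℝ)) < f :=
  Pool.Agent.K9h6.GS.top2

end Pool.Agent.Results.MP_3f8e47_nt.StretchedExponential
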